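import Pool.Agent.N126.IS.Stm2
import Pool.Agent.N126.IS.Orb
import Pool.Agent.W602.GT.Gm

/-!
Project IS2 (helper126), part EQV (helper427): finiteness, from the structure of the set of points.
-/

set_option autoImplicit false

open Pool.Agent.W602.GT LinearAlgebra.Projectivization MvPolynomial Pool.Agent.N126.IS

namespace Pool.Agent.N427.IS

variable {n : ℕ} {ι κ : Type}

/-- the powers of almost all elements are not in a finite set -/
theorem zpow_fin {k : Type} [Field k] {d d' : ℤ} (hd : d ≠ d') (S : Set k) (hS : S.Finite) :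
    {z : k | z ≠ 0 ∧ z ^ d / z ^ d' ∈ S}.Finite := by
  classical
  have h1 : ∀ w : k, {z : k | z ≠ 0 ∧ z ^ d / z ^ d' = w}.Finite := by
    intro w
    have h2 : 0 < (d - d').natAbs := Int.natAbs_pos.2 (sub_ne_zero.2 hd)
    have h3 : ∀ w : k, {z : k | z ^ (d - d').natAbs = w}.Finite := by
      intro w
      refine ((Polynomial.nthRoots (d - d').natAbs w).toFinset.finite_toSet).subset ?_
      intro z hz
      rw [Finset.mem_coe, Multiset.mem_toFinset, Polynomial.mem_nthRoots h2]
      exact hz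
    refine ((h3 w).union (h3 w⁻¹)).subset ?_
    rintro z ⟨hz, hw⟩
    rw [← zpow_sub₀ hz] at hw
    rcases le_total 0 (d - d') with h | h
    · left
      change z ^ (d - d').natAbs = w
      rw [← hw, ← zpow_natCast, Int.natAbs_of_nonneg h]
    · right
      change z ^ (d - d').natAbs = w⁻¹
      rw [← hw, ← zpow_natCast, Int.ofNat_natAbs_of_nonpos h, zpow_neg]
  refine (hS.biUnion fun w _ => h1 w).subset ?_
  rintro z ⟨hz, hw⟩
  rw [Set.mem_iUnion₂]
  exact ⟨_, hw, hz, rfl⟩

/-- an orbit of a one-parameter group through a point of `X ∖ Z` gives infinitely many points -/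
theorem orb_inf {k0 K : Type} [Field k0] [Infinite k0] [Field K] [Algebra k0 K]
    {F : ι → MvPolynomial (Fin (n + 1)) K} {G : κ → MvPolynomial (Fin (n + 1)) K}
    {x : Fin (n + 1) → K} (hx : x ∈ Off F G) (ho : Orb F x) :
    ∃ μ : Fin (n + 1) → K, (∀ i, μ i ≠ 0) ∧
      ¬ (PtsOver k0 {c | (fun i => μ i * c i) ∈ Off F G} (∅ : Finset K)).Finite := by
  classical
  obtain ⟨b, i, i', hi, hi', hb, hwc⟩ := ho
  obtain ⟨⟨hx0, hxF⟩, j0, hj0⟩ := hx
  let μ : Fin (n + 1) → K := fun j => if x j = 0 then 1 else x j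
  let c : k0 → Fin (n + 1) → K := fun z j => if x j = 0 then 0 else algebraMap k0 K z ^ b j
  have hμ : ∀ j, μ j ≠ 0 := by
    intro j
    simp only [μ]
    split_ifs with h0
    · exact one_ne_zero
    · exact h0
  have hμc : ∀ z : k0, (fun j => μ j * c z j) = fun j => algebraMap k0 K z ^ b j * x j := by
    intro z
    funext j
    simp only [μ, c]
    split_ifs with h0
    · rw [h0]; simp
    · ring
  refine ⟨μ, hμ, fun hfin => ?_⟩
  have hc0 : ∀ z : k0, z ≠ 0 → c z ≠ 0 := by
    intro z hz h0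
    have h1 := congrFun h0 i
    simp only [c, if_neg hi, Pi.zero_apply] at h1
    exact zpow_ne_zero _ ((map_ne_zero _).2 hz) h1
  set Q := PtsOver k0 {c | (fun i => μ i * c i) ∈ Off F G} (∅ : Finset K) with hQ
  have h1 : {z : k0 | z ≠ 0 ∧ val (fun j => algebraMap k0 K z ^ b j * x j) (G j0) = 0}.Finite :=
    bad_finite b x (G j0) hj0
  have h2 : {z : k0 | z ≠ 0 ∧ z ^ b i / z ^ b i' ∈ (algebraMap k0 K) ⁻¹'
      ((fun p : ℙ K (Fin (n + 1) → K) => p.rep i / p.rep i') '' Q)}.Finite :=
    zpow_fin hb _ ((hfin.image _).preimage ((algebraMap k0 K).injective.injOn))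
  have h3 : (Set.univ : Set k0) ⊆ {0} ∪ ({z : k0 | z ≠ 0 ∧
      val (fun j => algebraMap k0 K z ^ b j * x j) (G j0) = 0} ∪
      {z : k0 | z ≠ 0 ∧ z ^ b i / z ^ b i' ∈ (algebraMap k0 K) ⁻¹'
      ((fun p : ℙ K (Fin (n + 1) → K) => p.rep i / p.rep i') '' Q)}) := by
    intro z _
    by_cases hz : z = 0
    · exact Or.inl hz
    by_cases hz1 : val (fun j => algebraMap k0 K z ^ b j * x j) (G j0) = 0
    · exact Or.inr (Or.inl ⟨hz, hz1⟩)
    · refine Or.inr (Or.inr ⟨hz, Projectivization.mk K (c z) (hc0 z hz),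
        ⟨c z, ?_, ?_, hc0 z hz, rfl⟩, ?_⟩)
      · change (fun j => μ j * c z j) ∈ Off F G
        rw [hμc]
        have hzL : algebraMap k0 K z ≠ 0 := (map_ne_zero _).2 hz
        refine ⟨⟨fun h0 => ?_, fun e => val_orbit x b hzL (F e) (hwc e)⟩, j0, hz1⟩
        have h4 := congrFun h0 i
        simp only [Pi.zero_apply] at h4
        exact mul_ne_zero (zpow_ne_zero _ hzL) hi h4
      · intro j
        simp only [c]
        split_ifs
        · exact zero_mem _
        · exact zpow_mem (IntermediateField.algebraMap_mem _ z) _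
      · obtain ⟨a, ha⟩ := Projectivization.exists_smul_eq_mk_rep K (c z) (hc0 z hz)
        simp only
        rw [← ha]
        simp only [Pi.smul_apply, c, if_neg hi, if_neg hi']
        rw [Units.smul_def, Units.smul_def, smul_eq_mul, smul_eq_mul,
          mul_div_mul_left _ _ a.ne_zero, map_div₀, map_zpow₀, map_zpow₀]
  exact Set.infinite_univ ((((Set.finite_singleton 0).union (h1.union h2))).subset h3)

/-- scaling -/
theorem off_smul {K : Type} [Field K] {F : ι → MvPolynomial (Fin (n + 1)) K}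
    {G : κ → MvPolynomial (Fin (n + 1)) K} (hF : ∀ i, IsForm (F i)) (hG : ∀ j, IsForm (G j))
    {x : Fin (n + 1) → K} (hx : x ∈ Off F G) {a : K} (ha : a ≠ 0) :
    (fun i => a * x i) ∈ Off F G := by
  obtain ⟨⟨h0, h1⟩, j, hj⟩ := hx
  refine ⟨⟨fun h => ?_, fun e => ?_⟩, j, ?_⟩
  · apply h0
    funext i
    exact (mul_eq_zero.1 (congrFun h i)).resolve_left ha
  · obtain ⟨d, hd⟩ := hF e
    rw [val_smul hd, h1 e, mul_zero]
  · obtain ⟨d, hd⟩ := hG j
    rw [val_smul hd]
    exact mul_ne_zero (pow_ne_zero _ ha) hj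

theorem main_EQV (hFG : S_FG) : S_EQV := by
  classical
  intro k0 K _ _ _ _ _ n ι κ F G hF hG hst hiso T0
  set k := algebraicClosure k0 K with hk
  set L := IntermediateField.adjoin k0 (T0 : Set K) with hL
  obtain ⟨T1, hT1⟩ := hFG k0 K T0 (L ⊓ k) inf_le_left
  have hT1alg : ∀ t ∈ T1, IsAlgebraic k0 t := by
    intro t ht
    have h1 : t ∈ L ⊓ k := by
      rw [hT1]
      exact IntermediateField.subset_adjoin _ _ (by simpa using ht)
    exact (mem_algebraicClosure_iff).1 h1.2
  obtain ⟨S, hS⟩ := hst T0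
  -- no orbits
  have hno : ∀ x ∈ Off F G, ¬ Orb F x := by
    intro x hx ho
    obtain ⟨μ, hμ, hinf⟩ := orb_inf (k0 := k0) hx ho
    exact hinf (hiso μ hμ ∅ (fun t ht => absurd ht (Finset.notMem_empty t)))
  -- the points on one translate
  let P : (Fin (n + 1) → K) → Set (ℙ K (Fin (n + 1) → K)) := fun y =>
    {p | ∃ x ∈ Off F G, (∀ i, x i ∈ L) ∧ (∃ (a : K) (c : Fin (n + 1) → k), (∀ i, c i ≠ 0) ∧
      ∀ i, x i = a * y i * algebraMap k K (c i)) ∧ ∃ hx : x ≠ 0, p = Projectivization.mk K x hx}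
  have hP : ∀ y, (P y).Finite := by
    intro y
    by_cases hne : (P y).Nonempty
    swap
    · rw [Set.not_nonempty_iff_eq_empty.1 hne]
      exact Set.finite_empty
    obtain ⟨_, x0, hx0V, hx0L, ⟨a0, c0, hc0, hx0⟩, hx0n, -⟩ := hne
    obtain ⟨j0, hj0⟩ := Function.ne_iff.1 hx0n
    have hj0' : x0 j0 ≠ 0 := hj0
    let μ : Fin (n + 1) → K := fun j => if x0 j = 0 then 1 else x0 j
    have hμ : ∀ j, μ j ≠ 0 := by
      intro j
      simp only [μ]
      split_ifs with h0
      · exact one_ne_zero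
      · exact h0
    have hne' : ∀ c : Fin (n + 1) → K, c ≠ 0 → (fun i => μ i * c i) ≠ 0 := by
      intro c hc h0
      apply hc
      funext i
      exact (mul_eq_zero.1 (congrFun h0 i)).resolve_left (hμ i)
    let ψ : ℙ K (Fin (n + 1) → K) → ℙ K (Fin (n + 1) → K) := fun p =>
      Projectivization.mk K _ (hne' p.rep p.rep_nonzero)
    have hψ : ∀ (c : Fin (n + 1) → K) (hc : c ≠ 0),
        ψ (Projectivization.mk K c hc) = Projectivization.mk K _ (hne' c hc) := by
      intro c hc
      obtain ⟨a, ha⟩ := Projectivization.exists_smul_eq_mk_rep K c hc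
      change Projectivization.mk K _ _ = Projectivization.mk K _ _
      rw [Projectivization.mk_eq_mk_iff']
      refine ⟨a, ?_⟩
      funext i
      rw [← ha]
      simp only [Pi.smul_apply, Units.smul_def, smul_eq_mul]
      ring
    refine ((hiso μ hμ T1 hT1alg).image ψ).subset ?_
    rintro p ⟨x, hxV, hxL, ⟨a, c, hc, hx⟩, hxn, rfl⟩
    -- the zeros
    have ha0 : a0 ≠ 0 := by
      rintro rfl
      apply hj0'
      rw [hx0 j0, zero_mul, zero_mul]
    have hcK : ∀ i, algebraMap k K (c i) ≠ 0 := fun i => (map_ne_zero _).2 (hc i)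
    have hc0K : ∀ i, algebraMap k K (c0 i) ≠ 0 := fun i => (map_ne_zero _).2 (hc0 i)
    have ha : a ≠ 0 := by
      rintro rfl
      apply hxn
      funext i
      rw [hx i, zero_mul, zero_mul]; rfl
    have hyj0 : y j0 ≠ 0 := by
      intro h
      apply hj0'
      rw [hx0 j0, h, mul_zero, zero_mul]
    have hxj0 : x j0 ≠ 0 := by
      rw [hx j0]
      exact mul_ne_zero (mul_ne_zero ha hyj0) (hcK j0)
    have hz : ∀ j, x0 j = 0 → x j = 0 := by
      intro j h
      rw [hx0 j] at h
      have h1 : y j = 0 := by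
        rcases mul_eq_zero.1 h with h2 | h2
        · exact (mul_eq_zero.1 h2).resolve_left ha0
        · exact absurd h2 (hc0K j)
      rw [hx j, h1, mul_zero, zero_mul]
    let e : Fin (n + 1) → K := fun j => if x0 j = 0 then 0 else (x j / x j0) / (x0 j / x0 j0)
    have hen : e ≠ 0 := by
      intro h
      have h1 := congrFun h j0
      simp only [e, if_neg hj0', div_self hxj0, div_self hj0', Pi.zero_apply] at h1
      exact one_ne_zero ((div_one (1 : K)).symm.trans h1)
    have hμe : (fun j => μ j * e j) = fun j => (x0 j0 / x j0) * x j := by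
      funext j
      simp only [μ, e]
      split_ifs with h0
      · rw [hz j h0]; ring
      · field_simp
    have hmem : (fun j => μ j * e j) ∈ Off F G := by
      rw [hμe]
      exact off_smul hF hG hxV (div_ne_zero hj0' hxj0)
    refine ⟨Projectivization.mk K e hen, ⟨e, hmem, ?_, hen, rfl⟩, ?_⟩
    · intro j
      rw [← hT1]
      simp only [e]
      split_ifs with h0
      · exact zero_mem _
      · refine ⟨div_mem (div_mem (hxL j) (hxL j0)) (div_mem (hx0L j) (hx0L j0)), ?_⟩
        have hyj : y j ≠ 0 := by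
          intro h
          apply h0
          rw [hx0 j, h, mul_zero, zero_mul]
        have h1 : x j / x j0 / (x0 j / x0 j0) =
            algebraMap k K ((c j / c j0) / (c0 j / c0 j0)) := by
          rw [hx j, hx j0, hx0 j, hx0 j0, map_div₀, map_div₀, map_div₀]
          have g1 := hcK j
          have g2 := hcK j0
          have g3 := hc0K j
          have g4 := hc0K j0
          field_simp
        rw [h1]
        exact ((c j / c j0) / (c0 j / c0 j0)).2
    · rw [hψ, Projectivization.mk_eq_mk_iff']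
      refine ⟨x0 j0 / x j0, ?_⟩
      rw [hμe]
      rfl
  refine ((S.finite_toSet).biUnion fun y _ => hP y).subset ?_
  rintro p ⟨x, hxV, hxT, hxn, rfl⟩
  have hxk : ∀ i, x i ∈ IntermediateField.adjoin k (T0 : Set K) := by
    intro i
    have h1 : IntermediateField.adjoin k0 (T0 : Set K) ≤
        (IntermediateField.adjoin k (T0 : Set K)).restrictScalars k0 := by
      rw [IntermediateField.adjoin_le_iff]
      exact IntermediateField.subset_adjoin _ _
    exact h1 (hxT i)
  rcases hS x hxn hxk hxV.1.2 with h | ⟨y, hy, a, c, hc, hxc⟩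
  · exact absurd h (hno x hxV)
  · rw [Set.mem_iUnion₂]
    exact ⟨y, hy, x, hxV, hxT, ⟨a, c, hc, hxc⟩, hxn, rfl⟩

end Pool.Agent.N427.IS
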